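import Pool.Agent.Results.MP_cb6225_lc.PumpFinite

/-! Consequences for the whole alphabet. -/

namespace Pool.Agent.Work.MP_cb6225_lc

open List

theorem flatten_single {α : Type} (w : List α) : (w.map fun a => [a]).flatten = w := by
  induction w with
  | nil => rfl
  | cons a w ih => simp [ih]

theorem single_len {α : Type} (B : List (List α)) (h : ∀ w ∈ B, w ∈ Set.range fun a : α => [a]) :
    B.flatten.length = B.length := by
  induction B with
  | nil => rfl
  | cons b B ih =>
    obtain ⟨a, rfl⟩ := h b mem_cons_self
    rw [flatten_cons, length_append, ih fun w hw => h w (mem_cons_of_mem _ hw)]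
    simp [Nat.add_comm]

/-- an expressible language in which every word of length `N` has a longer congruent word -/
theorem regular_of_longer {α : Type} [Finite α] {Λ : Set (Set (ℕ → ℕ))} {L : Language α}
    (hL : Expressible Λ L) {N : ℕ}
    (h : ∀ w : List α, w.length = N → ∃ w', N < w'.length ∧ Syn L w w') : L.IsRegular := by
  obtain ⟨R, hR, k⟩ := (Pool.Agent.Results.MP_cb6225_lc.PumpFinite.result α Λ L hL
    (Set.range fun a => [a]) (Set.finite_range _) (by simp)).2 ⟨N, fun B a b => by
      obtain ⟨w', c, d⟩ := h B.flatten (by rw [single_len B a, b])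
      refine Or.inr ⟨[], w'.drop N, (w'.take N).map fun a => [a], ?_,
        fun w hw => by obtain ⟨a, -, rfl⟩ := mem_map.1 hw; exact ⟨a, rfl⟩, by simp; omega, by rwa [flatten_single, nil_append, take_append_drop]⟩
      intro j
      have := congrArg length j
      simp at this
      omega⟩
  refine Language.IsRegular.of_finite_range_leftQuotient ((hR.image L.leftQuotient).subset ?_)
  rintro _ ⟨w, rfl⟩
  obtain ⟨r, a, b⟩ := k (w.map fun a => [a]) (by simp)
  rw [flatten_single] at b
  exact ⟨r, a, Set.ext fun y => (b [] y).symm⟩

/-- an expressible language with only finitely many finite syntactic classes is regular -/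
theorem regular_of_few_finite {α : Type} [Finite α] {Λ : Set (Set (ℕ → ℕ))} {L : Language α}
    (hL : Expressible Λ L) (h : {w | {w' | Syn L w w'}.Finite}.Finite) : L.IsRegular := by
  obtain ⟨N, hN⟩ := (h.image length).bddAbove
  refine regular_of_longer hL (N := N + 1) fun w hw => ?_
  by_contra c
  push Not at c
  have := hN ⟨w, (finite_length_le α (N + 1)).subset fun w' j => not_lt.1 fun i => c w' i j, rfl⟩
  omega

/-- the case of a neutral word -/
theorem regular_of_neutral {α : Type} [Finite α] {Λ : Set (Set (ℕ → ℕ))} {L : Language α}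
    (hL : Expressible Λ L) {z : List α} (hz : z ≠ [])
    (h : ∀ x y : List α, x ++ z ++ y ∈ L ↔ x ++ y ∈ L) : L.IsRegular :=
  regular_of_longer hL (N := 0) fun w hw => ⟨z, length_pos_of_ne_nil hz, fun x y => by
    rw [length_eq_zero_iff.1 hw, append_nil, h]⟩

end Pool.Agent.Work.MP_cb6225_lc
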