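import Pool.Agent.Work.MP_cb6225_lc.Green

/-! The replacement property for a family of languages bounds the number of classes uniformly. -/

namespace Pool.Agent.Work.MP_cb6225_lc

open List

variable {α ι : Type} {L : ι → Language α} {M : Type} [Monoid M] [Finite M] {μ : List α → M}
  {c k : ℕ}

/-- the common syntactic congruence of a family of languages -/
def SynF (L : ι → Language α) (u v : List α) : Prop := ∀ i, Syn (L i) u v

theorem SynF.refl (u : List α) : SynF L u u := fun _ => Syn.refl _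

theorem SynF.trans {u v w : List α} (h : SynF L u v) (k : SynF L v w) : SynF L u w :=
  fun i => (h i).trans (k i)

theorem SynF.app {u v u' v' : List α} (h : SynF L u v) (k : SynF L u' v') :
    SynF L (u ++ u') (v ++ v') := fun i => (h i).app (k i)

theorem shortenF (hμ : Hom μ) (h : ∀ i, MP (L i) μ c) {A : Set (List α)} (hA : A.Finite)
    (hk : ∀ f ∈ A, nu (μ f) ≤ k) :
    ∃ K, ∀ U : List (List α), (∀ f ∈ U, f ∈ A) → k ≤ nu (μ U.flatten) → K < U.length →
      ∀ i x y, x ++ U.flatten ++ y ∈ L i → ∃ U₀ : List (List α), (∀ f ∈ U₀, f ∈ A) ∧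
        k ≤ nu (μ U₀.flatten) ∧ U₀.length < U.length ∧
        (∀ i, Le (L i) U₀.flatten U.flatten) ∧ x ++ U₀.flatten ++ y ∈ L i := by
  have hS : {F : List (List α) | F.length ≤ c ∧ ∀ f ∈ F, f ∈ A}.Finite := by
    have := hA.to_subtype
    refine ((finite_length_le A c).image (map Subtype.val)).subset ?_
    rintro F ⟨a, b⟩
    lift F to List A using b
    exact ⟨F, by simpa using a, rfl⟩
  have hT := (Set.finite_univ (α := M × M)).prod hS
  set n := (Set.univ ×ˢ {F : List (List α) | F.length ≤ c ∧ ∀ f ∈ F, f ∈ A} :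
    Set ((M × M) × List (List α))).ncard with hn
  refine ⟨c + c * n, fun U hU hU' hl i x y hw => ?_⟩
  have k1 : ∀ t, ∃ B H B' : List (List α), t < c → (U.drop (c + t * n)).take n = B ++ H ++ B' ∧
      H ≠ [] ∧ μ (B ++ H).flatten = μ B.flatten ∧
      μ (U.take (c + t * n) ++ (B ++ H)).flatten = μ (U.take (c + t * n) ++ B).flatten ∧
      (U.take (c + t * n) ++ (B ++ H)).rtake c = (U.take (c + t * n) ++ B).rtake c := fun t => by
    by_cases ht : t < c
    · obtain ⟨B, H, B', a1, a2, a3⟩ := cycle hT (fun B => ((μ B.flatten,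
        μ (U.take (c + t * n) ++ B).flatten), (U.take (c + t * n) ++ B).rtake c))
        ((U.drop (c + t * n)).take n)
        (by
          have : t * n + n ≤ c * n := by nlinarith
          rw [length_take, length_drop]; omega)
        fun P hP => ⟨trivial, by simp [rtake]; omega, fun f hf => by
          rcases mem_append.1 (mem_of_mem_drop hf) with j | j
          · exact hU f (mem_of_mem_take j)
          · exact hU f (mem_of_mem_drop (mem_of_mem_take (hP.subset j)))⟩
      simp only [Prod.mk.injEq] at a3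
      exact ⟨B, H, B', fun _ => ⟨a1, a2, a3.1.1, a3.1.2, a3.2⟩⟩
    · exact ⟨[], [], [], fun j => absurd j ht⟩
  choose B H B' k1 using k1
  have dec : ∀ t, U = U.take (c + t * n) ++ (U.drop (c + t * n)).take n ++
      U.drop (c + (t + 1) * n) := fun t => by
    rw [Nat.succ_mul, ← Nat.add_assoc, ← drop_drop (i := n), append_assoc, take_append_drop,
      take_append_drop]
  obtain ⟨t, ht, j⟩ := h i _ hw (fun t => x ++ (U.take (c + t * n)).flatten)
    (fun t => ((U.drop (c + t * n)).take n).flatten)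
    (fun t => (U.drop (c + (t + 1) * n)).flatten ++ y)
    (fun t => (B t ++ B' t).flatten) fun t ht => by
      refine ⟨?_, ?_, ?_⟩
      · conv_lhs => rw [dec t]
        simp only [flatten_append, append_assoc]
      · simp only [Nat.succ_mul, ← Nat.add_assoc, take_add, flatten_append, append_assoc]
      · rw [(k1 t ht).1, flatten_append, flatten_append (L₁ := B t ++ H t), hμ, hμ,
          (k1 t ht).2.2.1]
  obtain ⟨a1, a2, -, a4, a5⟩ := k1 t ht
  have e := dec t
  rw [a1] at e
  set Q := U.take (c + t * n) with hQ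
  set R := U.drop (c + (t + 1) * n)
  have hQl : c ≤ Q.length := by rw [hQ, length_take]; omega
  have e' : U = Q ++ B t ++ H t ++ (B' t ++ R) := by rw [e]; simp only [append_assoc]
  have hm : μ (Q ++ B t ++ (B' t ++ R)).flatten = μ U.flatten := by
    rw [e', flatten_append, flatten_append (L₁ := Q ++ B t ++ H t), hμ, hμ, append_assoc Q, a4]
  have sub : ∀ f ∈ Q ++ B t ++ (B' t ++ R), f ∈ A := fun f hf => hU f (by
    rw [e']; simp only [mem_append] at hf ⊢; tauto)
  refine ⟨Q ++ B t ++ (B' t ++ R), sub, hm ▸ hU', ?_, ?_,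
    by simpa only [flatten_append, append_assoc] using j⟩
  · have := length_pos_of_ne_nil a2
    rw [e']
    simp only [length_append]
    omega
  · intro i'
    have s1 : (Q ++ B t).rdrop c ++ (Q ++ B t).rtake c = Q ++ B t := take_append_drop _ _
    have s2 : (Q ++ (B t ++ H t)).rdrop c ++ (Q ++ (B t ++ H t)).rtake c = Q ++ (B t ++ H t) :=
      take_append_drop _ _
    have := insert_cycle (k := k) hμ (h i') ((Q ++ B t).rdrop c) ((Q ++ B t).rtake c) (H t)
      ((Q ++ (B t ++ H t)).rdrop c) (B' t ++ R) (by simp [rtake]; omega)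
      (fun f hf => hk f (sub f (mem_append_left _ (mem_of_mem_drop hf))))
      (by
        rw [s1]
        refine hU'.trans (nu_infix hμ ⟨[], (H t ++ (B' t ++ R)).flatten, ?_⟩)
        rw [e']; simp)
      (by rw [s1, ← a5, s2, append_assoc]) (by rw [s1, append_assoc, a4])
    rwa [s1, ← e'] at this

theorem levelF [Finite α] (hμ : Hom μ) (h : ∀ i, MP (L i) μ c) {l : ℕ}
    (hl : ∀ w, k + 1 ≤ nu (μ w) → ∃ w', w'.length ≤ l ∧ SynF L w w' ∧ μ w = μ w') :
    ∃ l, ∀ w, k ≤ nu (μ w) → ∃ w', w'.length ≤ l ∧ SynF L w w' ∧ μ w = μ w' := by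
  set A : Set (List α) := {f | f.length ≤ l + 1 ∧ nu (μ f) ≤ k}
  have hA : A.Finite := (finite_length_le α (l + 1)).subset fun _ h => h.1
  obtain ⟨K, hK⟩ := shortenF hμ h hA fun f hf => hf.2
  have fac : ∀ w, ∃ (U : List (List α)) (r : List α), (∀ f ∈ U, f ∈ A) ∧ r.length ≤ l ∧
      SynF L w (U.flatten ++ r) ∧ μ w = μ (U.flatten ++ r) := fun w => by
    induction w using reverseRecOn with
    | nil => exact ⟨[], [], by simp, by simp, SynF.refl _, rfl⟩
    | append_singleton w x ih =>
      obtain ⟨U, r, a1, a2, a3, a4⟩ := ih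
      have b3 := a3.app (SynF.refl [x])
      have b4 : μ (w ++ [x]) = μ (U.flatten ++ r ++ [x]) := by rw [hμ, a4, ← hμ]
      by_cases j : nu (μ (r ++ [x])) ≤ k
      · refine ⟨U ++ [r ++ [x]], [], fun f hf => ?_, by simp, by simpa using b3, by simpa using b4⟩
        rcases mem_append.1 hf with hf | hf
        · exact a1 f hf
        · rw [mem_singleton.1 hf]; exact ⟨by simpa using a2, j⟩
      · obtain ⟨r', c1, c2, c3⟩ := hl _ (not_le.1 j)
        rw [append_assoc] at b3 b4
        exact ⟨U, r', a1, c1, b3.trans ((SynF.refl _).app c2), by rw [b4, hμ, c3, hμ]⟩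
  have short : ∀ U : List (List α), (∀ f ∈ U, f ∈ A) → k ≤ nu (μ U.flatten) →
      ∀ i x y, x ++ U.flatten ++ y ∈ L i → ∃ u : List α, u.length ≤ K * (l + 1) ∧
        (∀ i, Le (L i) u U.flatten) ∧ x ++ u ++ y ∈ L i := fun U a1 a2 i x y a3 => by
    induction hn : U.length using Nat.strong_induction_on generalizing U with
    | _ n ih =>
      by_cases j : K < U.length
      · obtain ⟨V, b1, b2, b3, b4, b5⟩ := hK U a1 a2 j i x y a3
        obtain ⟨u, c1, c2, c3⟩ := ih _ (hn ▸ b3) V b1 b2 b5 rfl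
        exact ⟨u, c1, fun i' x y e => b4 i' x y (c2 i' x y e), c3⟩
      · refine ⟨U.flatten, ?_, fun _ _ _ e => e, a3⟩
        rw [length_flatten]
        refine (sum_le_card_nsmul _ (l + 1) fun m hm => ?_).trans ?_
        · obtain ⟨f, hf, rfl⟩ := mem_map.1 hm
          exact (a1 f hf).1
        · rw [length_map, smul_eq_mul]
          exact Nat.mul_le_mul_right _ (not_lt.1 j)
  obtain ⟨l', hl'⟩ := reps {U : List (List α) | (∀ f ∈ U, f ∈ A) ∧ k ≤ nu (μ U.flatten)}
    (fun U => ({u : List α | u.length ≤ K * (l + 1) ∧ ∀ i, Le (L i) u U.flatten}, μ U.flatten))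
    (((finite_length_le α (K * (l + 1))).finite_subsets.prod Set.finite_univ).subset (by
      rintro _ ⟨U, -, rfl⟩
      exact ⟨fun u hu => hu.1, trivial⟩)) fun U => U.flatten.length
  refine ⟨l' + l, fun w hw => ?_⟩
  obtain ⟨U, r, a1, a2, a3, a4⟩ := fac w
  have a5 : k ≤ nu (μ U.flatten) :=
    hw.trans (a4 ▸ nu_infix hμ (prefix_append _ _).isInfix)
  obtain ⟨V, ⟨b1, b2⟩, b3, b4⟩ := hl' U ⟨a1, a5⟩
  rw [Prod.mk.injEq, Set.ext_iff] at b4
  refine ⟨V.flatten ++ r, by rw [length_append]; omega, a3.trans (SynF.app ?_ (SynF.refl _)),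
    by rw [a4, hμ, hμ, b4.2]⟩
  refine fun i' x y => ⟨fun i => ?_, fun i => ?_⟩
  · obtain ⟨u, c1, c2, c3⟩ := short U a1 a5 i' x y i
    exact ((b4.1 u).2 ⟨c1, c2⟩).2 i' x y c3
  · obtain ⟨u, c1, c2, c3⟩ := short V b1 b2 i' x y i
    exact ((b4.1 u).1 ⟨c1, c2⟩).2 i' x y c3

theorem short_of_mp [Finite α] (hμ : Hom μ) (h : ∀ i, MP (L i) μ c) :
    ∃ l, ∀ w, ∃ w', w'.length ≤ l ∧ SynF L w w' := by
  have key : ∀ d k, Nat.card M < k + d →
      ∃ l, ∀ w, k ≤ nu (μ w) → ∃ w', w'.length ≤ l ∧ SynF L w w' ∧ μ w = μ w' := fun d => by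
    induction d with
    | zero =>
      refine fun k hk => ⟨0, fun w hw => ?_⟩
      have : nu (μ w) ≤ Nat.card M := Set.ncard_le_card _
      omega
    | succ d ih =>
      intro k hk
      obtain ⟨l, hl⟩ := ih (k + 1) (by omega)
      exact levelF hμ h hl
  obtain ⟨l, hl⟩ := key (Nat.card M + 1) 0 (by omega)
  exact ⟨l, fun w => (hl w (Nat.zero_le _)).imp fun _ j => ⟨j.1, j.2.1⟩⟩

end Pool.Agent.Work.MP_cb6225_lc
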