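import Pool.Agent.Work.MP_cb6225_lc.Green

/-! Words marked by long periodic factors. -/

namespace Pool.Agent.Work.MP_cb6225_lc

open List

variable {α : Type} {D : ℕ}

/-- the period `D` fails at position `i` -/
def Brk (D : ℕ) (s : List α) (i : ℕ) : Prop := i + D < s.length ∧ s[i]? ≠ s[i + D]?

/-- two consecutive failures of the period -/
def Gap (D : ℕ) (s : List α) (l r : ℕ) : Prop :=
  l < r ∧ Brk D s l ∧ Brk D s r ∧ ∀ i, l < i → i < r → ¬ Brk D s i

theorem get_mid (p q : List α) {s : List α} {j : ℕ} (h : j < s.length) :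
    (p ++ s ++ q)[p.length + j]? = s[j]? := by
  rw [append_assoc, getElem?_append_right (by omega), Nat.add_sub_cancel_left,
    getElem?_append_left h]

theorem brk_mid (p q : List α) {s : List α} {i : ℕ} (h : i + D < s.length) :
    Brk D (p ++ s ++ q) (p.length + i) ↔ Brk D s i := by
  unfold Brk
  rw [Nat.add_assoc, get_mid p q h, get_mid p q (show i < s.length by omega)]
  simp only [length_append]
  exact ⟨fun k => ⟨h, k.2⟩, fun k => ⟨by omega, k.2⟩⟩

theorem Brk.mid {s : List α} {i : ℕ} (h : Brk D s i) (p q : List α) :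
    Brk D (p ++ s ++ q) (p.length + i) := (brk_mid p q h.1).2 h

theorem Gap.mid {s : List α} {l r : ℕ} (h : Gap D s l r) (p q : List α) :
    Gap D (p ++ s ++ q) (p.length + l) (p.length + r) := by
  obtain ⟨h1, h2, h3, h4⟩ := h
  refine ⟨by omega, h2.mid p q, h3.mid p q, fun i a b k => ?_⟩
  obtain ⟨j, rfl⟩ : ∃ j, i = p.length + j := ⟨i - p.length, by omega⟩
  have := h3.1
  exact h4 j (by omega) (by omega) ((brk_mid p q (by omega)).1 k)

theorem Gap.eq {s : List α} {l r l' r' : ℕ} (h : Gap D s l r) (k : Gap D s l' r') (a : l < r')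
    (b : l' < r) : l = l' ∧ r = r' := by
  obtain ⟨-, h2, h3, h4⟩ := h
  obtain ⟨-, k2, k3, k4⟩ := k
  constructor
  · rcases lt_trichotomy l l' with j | j | j
    · exact absurd k2 (h4 _ j b)
    · exact j
    · exact absurd h2 (k4 _ j a)
  · rcases lt_trichotomy r r' with j | j | j
    · exact absurd h3 (k4 _ b j)
    · exact j
    · exact absurd k3 (h4 _ a j)

theorem pw_add (z : List α) (m n : ℕ) : pw z (m + n) = pw z m ++ pw z n := by
  induction m with
  | zero => simp [pw]
  | succ m ih => rw [Nat.add_right_comm, pw, pw, ih, append_assoc]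

theorem pw_mul (z : List α) (m n : ℕ) : pw (pw z m) n = pw z (m * n) := by
  induction n with
  | zero => rfl
  | succ n ih => rw [pw, ih, ← pw_add, Nat.mul_succ, Nat.add_comm]

theorem noBrk_pw {Z : List α} (hZ : Z = [] ∨ Z.length ∣ D) (n i : ℕ) : ¬ Brk D (pw Z n) i := by
  rintro ⟨h1, h2⟩
  rw [pw_len] at h1
  rcases hZ with rfl | ⟨c, rfl⟩
  · simp at h1
  obtain ⟨m, rfl⟩ := Nat.exists_eq_add_of_le
    (show c ≤ n from (Nat.lt_of_mul_lt_mul_left (a := Z.length) (by omega)).le)
  apply h2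
  have e : i < (pw Z m).length := by
    rw [Nat.mul_add] at h1
    rw [pw_len]
    omega
  have a : (pw Z (c + m))[i]? = (pw Z m)[i]? := by
    rw [Nat.add_comm, pw_add, getElem?_append_left e]
  have b : (pw Z (c + m))[i + Z.length * c]? = (pw Z m)[i]? := by
    rw [pw_add, getElem?_append_right (by rw [pw_len]; omega), pw_len, Nat.add_sub_cancel]
  rw [a, b]

theorem gap_mk {P Q R : List α} (hR : ∀ i, ¬ Brk D R i) (hP : ∃ i, Brk D P i)
    (hQ : ∃ i, Brk D Q i) :
    ∃ l r, Gap D (P ++ R ++ Q) l r ∧ l < P.length ∧ P.length + R.length ≤ r + D := by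
  classical
  obtain ⟨i, hi⟩ := hP
  obtain ⟨j, hj⟩ := hQ
  have a : Brk D (P ++ R ++ Q) i := by
    simpa only [nil_append, length_nil, Nat.zero_add, append_assoc] using hi.mid [] (R ++ Q)
  have b : Brk D (P ++ R ++ Q) ((P ++ R).length + j) := by
    simpa only [append_nil] using hj.mid (P ++ R) []
  have hi' := hi.1
  set l := Nat.findGreatest (Brk D (P ++ R ++ Q)) (P.length - 1) with hl
  have l1 : Brk D (P ++ R ++ Q) l := Nat.findGreatest_spec (show i ≤ _ by omega) a
  have l2 : l ≤ P.length - 1 := Nat.findGreatest_le _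
  have ex : ∃ r, l < r ∧ Brk D (P ++ R ++ Q) r := ⟨_, by rw [length_append]; omega, b⟩
  have r1 := Nat.find_spec ex
  refine ⟨l, Nat.find ex, ⟨r1.1, l1, r1.2, fun k k1 k2 k3 => Nat.find_min ex k2 ⟨k1, k3⟩⟩,
    by omega, ?_⟩
  by_contra c
  have r2 : P.length ≤ Nat.find ex := by
    by_contra d
    exact Nat.findGreatest_is_greatest r1.1 (by omega) r1.2
  obtain ⟨k, hk⟩ := Nat.exists_eq_add_of_le r2
  have r3 := r1.2
  rw [hk] at r3 c
  exact hR k ((brk_mid P Q (by omega)).1 r3)

/-- every position is near a gap whose size lies between `lo` and `hi` -/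
def Cov (D : ℕ) (G : List α) (lo hi B : ℕ) : Prop :=
  ∀ c ≤ G.length, ∃ l r, Gap D G l r ∧ l + lo ≤ r ∧ r ≤ l + hi ∧ l ≤ c + B ∧ c ≤ r + B

theorem cov_mk {P R z T Q : List α} {n B : ℕ} (hR : ∀ i, ¬ Brk D R i) (hT : ∀ i, ¬ Brk D T i)
    (hP : ∃ i, Brk D P i) (hQ : ∃ i, Brk D Q i) (h1 : n ≤ R.length)
    (h2 : T.length = 0 ∨ n ≤ T.length) (hB : P.length + z.length + Q.length + D ≤ B) :
    Cov D (P ++ R ++ z ++ T ++ Q) (n - D) (B + (R.length + T.length)) B := fun c hc => by
  obtain ⟨i, hi⟩ := hP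
  obtain ⟨j, hj⟩ := hQ
  simp only [length_append] at hc
  by_cases k : c ≤ P.length + R.length + z.length ∨ T.length = 0
  · obtain ⟨l, r, a1, a2, a3⟩ := gap_mk (Q := z ++ T ++ Q) hR ⟨i, hi⟩
      ⟨_, by simpa only [append_nil] using hj.mid (z ++ T) []⟩
    have := a1.1
    have := a1.2.2.1.1
    simp only [length_append] at this
    exact ⟨l, r, by simpa only [append_assoc] using a1, by omega, by omega, by omega, by omega⟩
  · obtain ⟨l, r, a1, a2, a3⟩ := gap_mk (P := P ++ R ++ z) hT
      ⟨_, by simpa only [nil_append, append_assoc] using hi.mid [] (R ++ z)⟩ ⟨j, hj⟩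
    have := a1.1
    have := a1.2.2.1.1
    simp only [length_append] at this a2 a3
    exact ⟨l, r, a1, by omega, by omega, by omega, by omega⟩

theorem cross_gap {G s t : List α} {lo hi B : ℕ} (h : Cov D G lo hi B) (h2 : 2 * B < lo)
    (k : Cross G s t) :
    ∃ l r, Gap D (s ++ t) l r ∧ l + lo ≤ r ∧ r ≤ l + hi ∧ ((l ≤ s.length + B ∧ s.length + B < r) ∨
      (¬ s.length + B < r ∧ l + B < s.length ∧ s.length ≤ r + B)) := by
  obtain ⟨p, q, -, -, rfl, ⟨s, rfl⟩, t, rfl⟩ := k
  obtain ⟨l, r, a1, a2, a3, a4, a5⟩ := h p.length (by simp)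
  refine ⟨s.length + l, s.length + r, by simpa only [append_assoc] using a1.mid s t, by omega,
    by omega, ?_⟩
  simp only [length_append]
  omega

theorem locate (G : ℕ → List α) (K c : ℕ) (h : c ≤ (seg G 0 (K + 1)).length) :
    ∃ k < K + 1, (seg G 0 k).length ≤ c ∧ c ≤ (seg G 0 k).length + (G k).length := by
  induction K with
  | zero => exact ⟨0, by omega, by simp [seg], by simpa [seg] using h⟩
  | succ K ih =>
    by_cases j : c ≤ (seg G 0 (K + 1)).length
    · obtain ⟨k, a, b⟩ := ih j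
      exact ⟨k, by omega, b⟩
    · rw [seg_succ, length_append, Nat.zero_add] at h
      exact ⟨K + 1, by omega, by omega, h⟩

theorem swap_gap {M : Type} {μ : List α → M} {L : Language α} {C : ℕ} (h : SW L μ C)
    (X X' : List α) (G G' : ℕ → List α) (lo hi : ℕ → ℕ) (B : ℕ)
    (hG : ∀ k < 2 * C + 1, Cov D (G k) (lo k) (hi k) B ∧
      2 * B + X.length + X'.length + 1 < lo k ∧ (G' k).length = (G k).length ∧ μ (G' k) = μ (G k))
    (mono : ∀ i j, i < j → hi i < lo j)
    (hw : X ++ seg G 0 (2 * C + 1) ++ X' ∈ L) :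
    ∃ t < 2 * C + 1, X ++ seg G 0 t ++ G' t ++ seg G (t + 1) (2 * C + 1 - t - 1) ++ X' ∈ L := by
  classical
  have inj : ∀ i j, lo i ≤ hi j → lo j ≤ hi i → i = j := fun i j a b => by
    rcases lt_trichotomy i j with c | c | c
    · have := mono i j c
      omega
    · exact c
    · have := mono j i c
      omega
  obtain ⟨cuts, c1, c2⟩ := h _ hw
  have : ∃ t < 2 * C + 1, ∀ k ∈ cuts, ¬ Cross (G t) k.1 k.2 := by
    by_contra j
    push Not at j
    choose! g g1 g2 using j
    have e := fun t ht => cross_gap (hG t ht).1 (by have := (hG t ht).2.1; omega) (g2 t ht)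
    choose! l r e1 e2 e3 e4 using e
    obtain ⟨s, hs, t, ht, k1, k2⟩ := Finset.exists_ne_map_eq_of_card_lt_of_maps_to
      (s := Finset.range (2 * C + 1)) (t := cuts.toFinset ×ˢ (Finset.univ : Finset Bool))
      (f := fun t => (g t, decide ((g t).1.length + B < r t)))
      (by
        have := toFinset_card_le cuts
        rw [Finset.card_range, Finset.card_product, Finset.card_univ, Fintype.card_bool]
        omega)
      fun t ht => Finset.mem_coe.2 (Finset.mem_product.2
        ⟨mem_toFinset.2 (g1 t (Finset.mem_range.1 ht)), Finset.mem_univ _⟩)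
    rw [Finset.mem_range] at hs ht
    simp only [Prod.mk.injEq, decide_eq_decide] at k2
    have a1 := e1 s hs
    have a2 := e2 s hs
    have a3 := e3 s hs
    have a4 := e4 s hs
    have b2 := e2 t ht
    have b3 := e3 t ht
    have b4 := e4 t ht
    obtain ⟨k2, k3⟩ := k2
    rw [k2] at a1 a4 k3
    have := a1.eq (e1 t ht) (by omega) (by omega)
    exact k1 (inj s t (by omega) (by omega))
  obtain ⟨t, ht, k⟩ := this
  have dec : ∀ k < 2 * C + 1, X ++ seg G 0 (2 * C + 1) ++ X' =
      X ++ seg G 0 k ++ G k ++ (seg G (k + 1) (2 * C + 1 - k - 1) ++ X') := fun k hk => by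
    rw [seg_split _ hk]; simp only [append_assoc]
  obtain ⟨b1, big, b2, b3⟩ := hG t ht
  have uniq : ∀ p q, p ++ G t ++ q = X ++ seg G 0 (2 * C + 1) ++ X' →
      p.length = (X ++ seg G 0 t).length := fun p q e => by
    have key : ∀ l r, Gap D (G t) l r → l + lo t ≤ r → r ≤ l + hi t →
        (X ++ seg G 0 t).length ≤ p.length + l ∧
          p.length + r ≤ (X ++ seg G 0 t).length + (G t).length := fun l r g a1 a2 => by
      replace g := g.mid p q
      rw [e] at g
      have a3 := g.2.2.1.1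
      simp only [length_append] at a3
      obtain ⟨k, hk, a4, a5⟩ := locate G (2 * C) (p.length + l + B + 1) (by omega)
      obtain ⟨l', r', g', d1, d2, d3, d4⟩ := (hG k hk).1
        (p.length + l + B + 1 - (seg G 0 k).length) (by omega)
      have d5 := g'.2.2.1.1
      replace g' := g'.mid (X ++ seg G 0 k) (seg G (k + 1) (2 * C + 1 - k - 1) ++ X')
      rw [← dec k hk, length_append] at g'
      have := g.eq g' (by omega) (by omega)
      have : t = k := inj t k (by omega) (by omega)
      subst this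
      rw [length_append]
      omega
    obtain ⟨l, r, g, a1, a2, a3, -⟩ := b1 0 (by omega)
    obtain ⟨l', r', g', d1, d2, -, d3⟩ := b1 _ le_rfl
    have k1 := key l r g a1 a2
    have k2 := key l' r' g' d1 d2
    have g1 := g.mid p q
    have g2 := g.mid (X ++ seg G 0 t) (seg G (t + 1) (2 * C + 1 - t - 1) ++ X')
    rw [← dec t ht, ← e] at g2
    have := g1.eq g2 (by omega) (by omega)
    omega
  have b4 : 2 ≤ (G t).length := by
    obtain ⟨l, r, g, -⟩ := b1 0 (by omega)
    have := g.1
    have := g.2.2.1.1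
    omega
  have k' := c2 _ _ b4 b2 b3 k
  refine ⟨t, ht, ?_⟩
  rw [dec t ht, append_assoc (X ++ seg G 0 t), rep_skip,
    rep_pos _ (by intro j; rw [j] at b4; simp at b4), rep_noocc] at k'
  · simpa only [append_assoc] using k'
  · rintro ⟨p, q, j⟩
    have := uniq (X ++ seg G 0 t ++ G t ++ p) q (by
      rw [dec t ht, ← j]; simp only [append_assoc])
    simp only [length_append] at this
    omega
  · rintro s hs ⟨p, j1⟩ ⟨q, j2⟩
    have := uniq p q (by
      rw [dec t ht, ← j1, append_assoc p, j2]; simp only [append_assoc])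
    rw [← j1, length_append] at this
    have := length_pos_of_ne_nil hs
    omega

theorem syn_seg' {L : Language α} {v w : ℕ → List α} {i n : ℕ}
    (h : ∀ k, k < i + n → Syn L (v k) (w k)) : Syn L (seg v i n) (seg w i n) := by
  induction n generalizing i with
  | zero => exact Syn.refl _
  | succ n ih => exact (h i (by omega)).app (ih fun k hk => h k (by omega))

theorem swap_run {M : Type} {μ : List α → M} {L : Language α} {C : ℕ} (h : SW L μ C)
    (X X' : List α) (u u' : ℕ → List α)
    (hu : ∀ k < 2 * C + 1, ∃ P U z V Q : List α, U ≠ [] ∧ U.length + V.length = D ∧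
      (∀ n i, ¬ Brk D (pw U n) i) ∧ (∀ n i, ¬ Brk D (pw V n) i) ∧
      (∃ i, Brk D P i) ∧ (∃ i, Brk D Q i) ∧
      ∀ m, Syn L (u k) (P ++ pw U m ++ z ++ pw V m ++ Q) ∧
        ∃ G', G'.length = (P ++ pw U m ++ z ++ pw V m ++ Q).length ∧
          μ G' = μ (P ++ pw U m ++ z ++ pw V m ++ Q) ∧ Syn L (u' k) G')
    (hw : X ++ seg u 0 (2 * C + 1) ++ X' ∈ L) :
    ∃ t < 2 * C + 1, X ++ seg u 0 t ++ u' t ++ seg u (t + 1) (2 * C + 1 - t - 1) ++ X' ∈ L := by
  choose! P U z V Q h0 h1 hU hV h2 h3 h4 using hu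
  obtain ⟨B, hB⟩ := ((Finset.range (2 * C + 1)).image fun k =>
    (P k).length + (z k).length + (Q k).length + D).exists_le
  simp only [Finset.forall_mem_image, Finset.mem_range] at hB
  replace hB := fun k hk => hB (x := k) hk
  obtain ⟨n, n1, n2⟩ : ∃ n : ℕ → ℕ, (∀ i, 2 * B + X.length + X'.length + D + 2 ≤ n i) ∧
      ∀ i j, i < j → D * n i + (2 * B + X.length + X'.length + D + 2) ≤ n j := by
    set K := 2 * B + X.length + X'.length + D + 2
    refine ⟨fun i => K * (D + 1) ^ i, fun i => Nat.le_mul_of_pos_right _ (by positivity),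
      fun i j ij => ?_⟩
    have a : (D + 1) ^ (i + 1) ≤ (D + 1) ^ j := Nat.pow_le_pow_right (by omega) ij
    have b : 1 ≤ (D + 1) ^ i := Nat.one_le_pow _ _ (by omega)
    calc D * (K * (D + 1) ^ i) + K = K * (D * (D + 1) ^ i + 1) := by ring
      _ ≤ K * (D + 1) ^ j := Nat.mul_le_mul_left _ (by rw [pow_succ] at a; nlinarith)
  have h5 := fun k hk => (h4 k hk (n k)).2
  choose! G' h5 h6 h7 using h5
  have sy : ∀ k < 2 * C + 1, Syn L (u k) (P k ++ pw (U k) (n k) ++ z k ++ pw (V k) (n k) ++ Q k) :=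
    fun k hk => (h4 k hk _).1
  obtain ⟨t, ht, k⟩ := swap_gap (D := D) h X X'
    (fun k => P k ++ pw (U k) (n k) ++ z k ++ pw (V k) (n k) ++ Q k) G' (fun k => n k - D)
    (fun k => B + D * n k) B
    (fun k hk => by
      refine ⟨?_, by have := n1 k; omega, h5 k hk, h6 k hk⟩
      have := cov_mk (z := z k) (n := n k) (hU k hk (n k)) (hV k hk (n k)) (h2 k hk) (h3 k hk)
        (by rw [pw_len]; exact Nat.le_mul_of_pos_left _ (length_pos_of_ne_nil (h0 k hk)))
        (by
          rw [pw_len]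
          rcases Nat.eq_zero_or_pos (V k).length with j | j
          · exact Or.inl (by rw [j, Nat.zero_mul])
          · exact Or.inr (Nat.le_mul_of_pos_left _ j)) (hB k hk)
      rwa [pw_len, pw_len, ← Nat.add_mul, h1 k hk] at this)
    (fun i j ij => by have := n2 i j ij; omega)
    ((((Syn.refl X).app (syn_seg' fun k hk => sy k (by omega))).app (Syn.refl X')).mem hw)
  exact ⟨t, ht, (((((Syn.refl X).app (syn_seg' fun k hk => sy k (by omega))).app (h7 t ht)).app
    (syn_seg' fun k hk => sy k (by omega))).app (Syn.refl X')).symm.mem k⟩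

end Pool.Agent.Work.MP_cb6225_lc
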