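import Pool.Agent.Work.MP_cb6225_lc.P.Pump

/-! Words with the same principal left and right ideals in the syntactic monoid. -/

namespace Pool.Agent.Work.MP_cb6225_lc

open List

variable {α : Type} {L : Language α} {D : ℕ}

theorem swap_one {M : Type} {μ : List α → M} {C : ℕ} (h : SW L μ C) (hD : 0 < D)
    (X X' : List α) {P Z Q : List α} (hZ : Z.length = D) (hP : ∃ i, Brk D P i)
    (hQ : ∃ i, Brk D Q i) :
    ∃ n : ℕ → ℕ, ∀ G' : ℕ → List α, (∀ k, (G' k).length = (P ++ pw Z (n k) ++ Q).length ∧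
      μ (G' k) = μ (P ++ pw Z (n k) ++ Q)) →
      X ++ seg (fun k => P ++ pw Z (n k) ++ Q) 0 (2 * C + 1) ++ X' ∈ L →
      ∃ t < 2 * C + 1, X ++ seg (fun k => P ++ pw Z (n k) ++ Q) 0 t ++ G' t ++
        seg (fun k => P ++ pw Z (n k) ++ Q) (t + 1) (2 * C + 1 - t - 1) ++ X' ∈ L := by
  set B := P.length + Q.length + D with hB
  set K := 2 * B + X.length + X'.length + D + 2 with hK
  have mono : ∀ i j, i < j → D * (K * (i + 1)) + K ≤ D * (K * (j + 1)) := fun i j ij => by
    obtain ⟨d, rfl⟩ := Nat.exists_eq_add_of_lt ij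
    obtain ⟨E, rfl⟩ := Nat.exists_eq_add_of_lt hD
    nlinarith [Nat.zero_le (E * K), Nat.zero_le (E * K * d), Nat.zero_le (K * d)]
  have big : ∀ i, K ≤ D * (K * (i + 1)) := fun i => by
    obtain ⟨E, rfl⟩ := Nat.exists_eq_add_of_lt hD
    nlinarith [Nat.zero_le (E * K), Nat.zero_le (E * K * i), Nat.zero_le (K * i)]
  refine ⟨fun k => K * (k + 1), fun G' hG hw => swap_gap (D := D) h X X' _ G'
    (fun k => D * (K * (k + 1)) - D) (fun k => B + D * (K * (k + 1))) B (fun k _ => ?_)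
    (fun i j ij => by have := mono i j ij; omega) hw⟩
  refine ⟨?_, by have := big k; omega, hG k⟩
  have := cov_mk (z := []) (T := []) (n := D * (K * (k + 1))) (B := B)
    (noBrk_pw (Z := Z) (Or.inr (by rw [hZ])) (K * (k + 1))) (fun i j => by simpa using j.1) hP hQ
    (by rw [pw_len, hZ]) (Or.inl rfl) (by simp [hB])
  simpa only [append_nil, length_nil, Nat.add_zero, pw_len, hZ] using this

theorem stab_app {s a b : List α} (h : Syn L (s ++ a) s) (k : Syn L (s ++ b) s) :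
    Syn L (s ++ (a ++ b)) s := by
  rw [← append_assoc]
  exact (h.app (Syn.refl b)).trans k

theorem stab_pw {s a : List α} (h : Syn L (s ++ a) s) (n : ℕ) : Syn L (s ++ pw a n) s := by
  induction n with
  | zero => simpa [pw] using Syn.refl _
  | succ n ih => exact stab_app h ih

theorem stab_seg {s : List α} {G : ℕ → List α} (h : ∀ k, Syn L (s ++ G k) s) (i n : ℕ) :
    Syn L (s ++ seg G i n) s := by
  induction n generalizing i with
  | zero => simpa [seg] using Syn.refl _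
  | succ n ih => exact stab_app (h i) (ih _)

theorem h_le {M : Type} [Monoid M] {μ : List α → M} (hμ : Hom μ) {C : ℕ} (h : SW L μ C)
    (hD : 0 < D) {s Z g g' e e' d : List α} (hZ : Z.length = D) (z1 : Syn L (s ++ Z) s)
    (z2 : ∀ n, μ (pw Z (n + 1)) = μ Z) (h1 : Syn L (s ++ (g ++ e)) s)
    (h2 : Syn L (s ++ (g' ++ e')) s) (h3 : Syn L (s ++ g') (d ++ (s ++ g))) (m : μ g' = μ g)
    (l : g'.length ≡ g.length [MOD D]) (x y : List α) (hw : x ++ (s ++ g) ++ y ∈ L) :
    x ++ (s ++ g') ++ y ∈ L := by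
  obtain ⟨a, b, l⟩ := pad_len l
  have up : ∀ u v, Syn L (s ++ u) s → Syn L (s ++ (u ++ v)) (s ++ v) := fun u v k => by
    rw [← append_assoc]
    exact k.app (Syn.refl v)
  by_cases c : ∃ A, Syn L (s ++ A) s ∧ ∃ i, Brk D A i
  · obtain ⟨A, A1, i, hi⟩ := c
    obtain ⟨n, hn⟩ := swap_one h hD (x ++ s) (g ++ y) (P := A ++ pw Z (b + 1)) (Q := g ++ e ++ A) hZ
      ⟨_, by simpa only [nil_append] using hi.mid [] _⟩
      ⟨_, by simpa only [append_nil] using hi.mid _ []⟩
    have st := stab_seg (G := fun k => A ++ pw Z (b + 1) ++ pw Z (n k) ++ (g ++ e ++ A))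
      fun k => stab_app (stab_app (stab_app A1 (stab_pw z1 _)) (stab_pw z1 _)) (stab_app h1 A1)
    obtain ⟨t, -, k⟩ := hn (fun k => A ++ pw Z (a + 1) ++ pw Z (n k) ++ (g' ++ e ++ A))
      (fun k => ⟨by simp only [length_append, pw_len, hZ]; omega, by simp only [hμ _ _, z2, m]⟩)
      (by simpa only [append_assoc] using (st 0 _ x (g ++ y)).2 (by simpa only [append_assoc] using hw))
    have s1 := st 0 t
    have s2 := st (t + 1) (2 * C + 1 - t - 1)
    generalize seg _ 0 t = S1 at k s1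
    generalize seg _ (t + 1) _ = S2 at k s2
    have q1 : Syn L (s ++ g ++ (e ++ A ++ S2 ++ g)) (s ++ g) := by
      simpa only [append_assoc] using up _ g (stab_app (stab_app h1 A1) s2)
    have q2 : Syn L (s ++ g' ++ (e ++ A ++ S2 ++ g)) (s ++ g') := by
      refine (h3.app (Syn.refl _)).trans (Syn.trans ?_ h3.symm)
      rw [append_assoc d]
      exact (Syn.refl d).app q1
    have q3 := up _ (g' ++ (e ++ A ++ S2 ++ g))
      (stab_app s1 (stab_app (stab_app A1 (stab_pw z1 (a + 1))) (stab_pw z1 (n t))))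
    rw [← append_assoc s g'] at q3
    exact (q3.trans q2 x y).1 (by simpa only [append_assoc] using k)
  · have pb : ∀ u v n, Syn L (s ++ (u ++ v)) s → PB D Z (pw Z (n + 1) ++ u) := fun u v n k i hi => by
      have := pb_of_noBrk (b := Z) (t := pw Z n ++ (u ++ v)) hD hZ.ge
        (fun j hj => c ⟨_, stab_app z1 (stab_app (stab_pw z1 n) k), j, hj⟩) i
        (by simp only [pw, length_append] at hi ⊢; omega)
      rw [← this, ← append_assoc Z, ← pw, ← append_assoc, getElem?_append_left hi]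
    have e := (pb g' e' a h2).eq (pb g e b h1) (by simp only [length_append, pw_len, hZ]; omega)
    have := (up _ g' (stab_pw z1 (a + 1))).symm.trans (e ▸ up _ g (stab_pw z1 (b + 1)))
    exact (this x y).2 hw

theorem h_finite {Λ : Set (Set (ℕ → ℕ))} (hL : Expressible Λ L) (s : List α) :
    ∃ R : Set (List α), R.Finite ∧ ∀ t : List α, (∃ a b c d, Syn L t (s ++ a) ∧ Syn L s (t ++ b) ∧
      Syn L t (c ++ s) ∧ Syn L s (d ++ t)) → ∃ r ∈ R, Syn L t r := by
  have st : ∀ {t a b}, Syn L t (s ++ a) → Syn L s (t ++ b) → Syn L (s ++ (a ++ b)) s :=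
    fun {t a b} h1 h2 => by
      rw [← append_assoc]
      exact (h2.trans (h1.app (Syn.refl b))).symm
  by_cases c : ∃ z, z ≠ [] ∧ Syn L (s ++ z) s
  swap
  · refine ⟨{s}, Set.finite_singleton _, ?_⟩
    rintro t ⟨a, b, -, -, h1, h2, -⟩
    have : a ++ b = [] := by
      by_contra j
      exact c ⟨_, j, st h1 h2⟩
    rw [(append_eq_nil_iff.1 this).1, append_nil] at h1
    exact ⟨s, rfl, h1⟩
  obtain ⟨z, z0, z1⟩ := c
  obtain ⟨M, _, _, μ, C, hμ, h⟩ := sw_of_expr hL
  obtain ⟨p, hp, hp'⟩ := pow_idem (μ z)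
  have hD : 0 < z.length * p := Nat.mul_pos (length_pos_of_ne_nil z0) hp
  have : NeZero (z.length * p) := ⟨hD.ne'⟩
  have z2 : ∀ n, μ (pw (pw z p) (n + 1)) = μ (pw z p) := fun n => by
    have m : ∀ j, μ (pw z (p * (j + 1))) = μ z ^ p := fun j => by
      obtain ⟨q, hq⟩ : ∃ q, p * (j + 1) = q + 1 :=
        ⟨_, (Nat.succ_pred_eq_of_pos (Nat.mul_pos hp j.succ_pos)).symm⟩
      rw [← hp' j, hq, mu_pw hμ]
    rw [pw_mul, m, ← m 0, Nat.zero_add, Nat.mul_one]
  have key : ∀ m : M × ZMod (z.length * p), ∃ r, ∀ t a b c d, Syn L t (s ++ a) → Syn L s (t ++ b) →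
      Syn L t (c ++ s) → Syn L s (d ++ t) → (μ a, (a.length : ZMod (z.length * p))) = m →
      Syn L t r := fun m => by
    by_cases j : ∃ t a b c d, Syn L t (s ++ a) ∧ Syn L s (t ++ b) ∧ Syn L t (c ++ s) ∧
        Syn L s (d ++ t) ∧ (μ a, (a.length : ZMod (z.length * p))) = m
    · obtain ⟨r, a', b', c', d', r1, r2, r3, r4, rfl⟩ := j
      refine ⟨r, fun t a b c d t1 t2 t3 t4 e => ?_⟩
      rw [Prod.mk.injEq, ZMod.natCast_eq_natCast_iff] at e
      have k1 : Syn L (s ++ a') (c' ++ d ++ (s ++ a)) := by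
        rw [append_assoc c']
        exact r1.symm.trans (r3.trans ((Syn.refl c').app (t4.trans ((Syn.refl d).app t1))))
      have k2 : Syn L (s ++ a) (c ++ d' ++ (s ++ a')) := by
        rw [append_assoc c]
        exact t1.symm.trans (t3.trans ((Syn.refl c).app (r4.trans ((Syn.refl d').app r1))))
      exact t1.trans (Syn.trans (fun x y => ⟨
        h_le hμ h hD (pw_len z p) (stab_pw z1 p) z2 (st t1 t2) (st r1 r2) k1 e.1.symm e.2.symm x y,
        h_le hμ h hD (pw_len z p) (stab_pw z1 p) z2 (st r1 r2) (st t1 t2) k2 e.1 e.2 x y⟩) r1.symm)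
    · exact ⟨[], fun t a b c d t1 t2 t3 t4 e => absurd ⟨t, a, b, c, d, t1, t2, t3, t4, e⟩ j⟩
  choose r hr using key
  refine ⟨Set.range r, Set.finite_range _, ?_⟩
  rintro t ⟨a, b, c, d, t1, t2, t3, t4⟩
  exact ⟨_, ⟨_, rfl⟩, hr _ t a b c d t1 t2 t3 t4 rfl⟩

end Pool.Agent.Work.MP_cb6225_lc
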