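import Pool.Agent.Work.MP_cb6225_lc.Defs

/-! The syntactic congruence and pumping inside a syntactic class. -/

namespace Pool.Agent.Work.MP_cb6225_lc

/-- the syntactic congruence of `L` -/
def Cong {α : Type} (L : Language α) (u v : List α) : Prop :=
  ∀ x y : List α, x ++ u ++ y ∈ L ↔ x ++ v ++ y ∈ L

/-- the syntactic class of `w` contains the words `x u ^ n z v ^ n y` for all `n`, with `u v`
nonempty -/
def Pumps {α : Type} (L : Language α) (w : List α) : Prop :=
  ∃ x u z v y : List α, u ++ v ≠ [] ∧ ∀ n : ℕ,
    Cong L w (x ++ (List.replicate n u).flatten ++ z ++ (List.replicate n v).flatten ++ y)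

end Pool.Agent.Work.MP_cb6225_lc
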