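import Pool.Agent.Work.MP_cb6225_lc.P.Gap
import Pool.Agent.Work.MP_cb6225_lc.P.Fam
import Pool.Agent.Work.MP_cb6225_lc.P.PumpDef

/-! Products of words that can be pumped inside their syntactic classes: one of boundedly many
congruent replacements keeps membership, so there are finitely many classes. -/

namespace Pool.Agent.Work.MP_cb6225_lc

open List

variable {α : Type} {L : Language α} {D : ℕ}

theorem nu_of_state {τ : Type} (st : List α → τ) (hf : (Set.range st).Finite)
    (hs : ∀ v v' a, st v = st v' → st (v ++ [a]) = st (v' ++ [a])) :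
    ∃ (M : Type) (_ : Monoid M) (_ : Finite M) (ν : List α → M), Hom ν ∧
      ∀ v v', ν v = ν v' → st v = st v' := by
  have hs' : ∀ w v v', st v = st v' → st (v ++ w) = st (v' ++ w) := fun w => by
    induction w with
    | nil => intro v v' h; simpa using h
    | cons a w ih =>
      intro v v' h
      simpa only [append_assoc, singleton_append] using ih _ _ (hs v v' a h)
  have := hf.to_subtype
  have : Finite (Function.End (Set.range st)) := inferInstanceAs (Finite (_ → _))
  refine ⟨(Function.End (Set.range st))ᵐᵒᵖ, inferInstance, Finite.of_equiv _ MulOpposite.opEquiv,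
    fun w => MulOpposite.op fun q => ⟨st (q.2.choose ++ w), _, rfl⟩, fun u v => ?_,
    fun v v' h => ?_⟩
  · rw [← MulOpposite.op_mul]
    refine congrArg MulOpposite.op (funext fun q => Subtype.ext ?_)
    have e : st (q.2.choose ++ u) ∈ Set.range st := ⟨_, rfl⟩
    have := hs' v _ _ e.choose_spec
    rw [append_assoc] at this
    exact this.symm
  · have e : st [] ∈ Set.range st := ⟨_, rfl⟩
    have k : st (e.choose ++ v) = st (e.choose ++ v') :=
      congrArg Subtype.val (congrFun (MulOpposite.op_injective h) ⟨st [], e⟩)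
    exact (hs' v _ _ e.choose_spec).symm.trans (k.trans (hs' v' _ _ e.choose_spec))

/-- `s` repeats the first `D` letters of `b` -/
def PB (D : ℕ) (b s : List α) : Prop := ∀ i < s.length, s[i]? = b[i % D]?

theorem pb_snoc {b s : List α} {a : α} :
    PB D b (s ++ [a]) ↔ PB D b s ∧ some a = b[s.length % D]? := by
  constructor
  · intro h
    refine ⟨fun i hi => ?_, ?_⟩
    · rw [← h i (by rw [length_append]; omega), getElem?_append_left hi]
    · rw [← h s.length (by simp)]; simp
  · rintro ⟨h1, h2⟩ i hi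
    rw [length_append, length_singleton] at hi
    rcases Nat.lt_succ_iff_lt_or_eq.1 hi with j | rfl
    · rw [getElem?_append_left j, h1 i j]
    · rw [← h2]; simp

theorem PB.eq {b s t : List α} (h : PB D b s) (k : PB D b t) (e : s.length = t.length) : s = t :=
  ext_getElem? fun i => by
    by_cases j : i < s.length
    · rw [h i j, k i (e ▸ j)]
    · rw [getElem?_eq_none (by omega), getElem?_eq_none (by omega)]

theorem pb_of_noBrk {b t : List α} (hD : 0 < D) (hb : D ≤ b.length)
    (h : ∀ i, ¬ Brk D (b ++ t) i) : PB D b (b ++ t) := fun i => by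
  induction i using Nat.strong_induction_on with
  | _ i ih =>
    intro hi
    by_cases j : i < D
    · rw [Nat.mod_eq_of_lt j, getElem?_append_left (by omega)]
    · obtain ⟨k, rfl⟩ : ∃ k, i = k + D := ⟨i - D, by omega⟩
      have e : (b ++ t)[k]? = (b ++ t)[k + D]? := by
        by_contra c
        exact h k ⟨hi, c⟩
      rw [← e, ih k (by omega) (by omega), Nat.add_mod_right]

theorem pb_app {b s s' : List α} {T : ℕ → List α} (t : List α)
    (h : (∀ n, PB D b (T n ++ s)) = ∀ n, PB D b (T n ++ s')) (e : s.length % D = s'.length % D) :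
    (∀ n, PB D b (T n ++ (s ++ t))) = ∀ n, PB D b (T n ++ (s' ++ t)) := by
  induction t generalizing s s' with
  | nil => simpa only [append_nil] using h
  | cons a t ih =>
    have := ih (s := s ++ [a]) (s' := s' ++ [a]) (by
      simp only [← append_assoc _ _ [a], pb_snoc, forall_and, h]
      congr 1
      refine forall_congr fun n => ?_
      rw [length_append, length_append, Nat.add_mod, e, ← Nat.add_mod])
      (by rw [length_append, length_append, Nat.add_mod, e, ← Nat.add_mod])
    simpa only [append_assoc, singleton_append] using this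

/-- pumping inside a syntactic class -/
def Pump (L : Language α) (w : List α) : Prop :=
  ∃ x u z v y : List α, u ++ v ≠ [] ∧ ∀ n, Syn L w (x ++ pw u n ++ z ++ pw v n ++ y)

theorem pw_eq (z : List α) (n : ℕ) : (replicate n z).flatten = pw z n := by
  induction n with
  | zero => rfl
  | succ n ih => rw [replicate_succ, flatten_cons, ih, pw]

theorem pumps_iff {w : List α} : Pumps L w ↔ Pump L w := by
  simp only [Pumps, pw_eq]
  rfl

theorem pw_nil (n : ℕ) : pw ([] : List α) n = [] := length_eq_zero_iff.1 (by simp [pw_len])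

theorem Pump.left {w : List α} (h : Pump L w) :
    ∃ x u z v y, u ≠ [] ∧ ∀ n, Syn L w (x ++ pw u n ++ z ++ pw v n ++ y) := by
  obtain ⟨x, u, z, v, y, h1, h2⟩ := h
  by_cases j : u = []
  · subst j
    exact ⟨x ++ z, v, [], [], y, h1, fun n => by simpa only [pw_nil, append_nil] using h2 n⟩
  · exact ⟨x, u, z, v, y, j, h2⟩

theorem uniform {ι : Type} {S : Set ι} (hS : S.Finite) (w : ι → List α) {M : Type} [Monoid M]
    [Finite M] {μ : List α → M} (hμ : Hom μ) (h : ∀ i ∈ S, Pump L (w i)) :
    ∃ D, 0 < D ∧ ∃ x U z V y : ι → List α, ∀ i ∈ S, D ≤ (x i).length ∧ U i ≠ [] ∧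
      (U i).length + (V i).length = D ∧ (∀ n j, ¬ Brk D (pw (U i) n) j) ∧
      (∀ n j, ¬ Brk D (pw (V i) n) j) ∧
      (∀ n, Syn L (w i) (x i ++ pw (U i) n ++ z i ++ pw (V i) n ++ y i)) ∧
      (∀ n, μ (pw (U i) (n + 1)) = μ (U i)) ∧ ∀ n, μ (pw (V i) (n + 1)) = μ (V i) := by
  have e := fun i hi => (h i hi).left
  choose! x u z v y e1 e2 using e
  choose p hp hp' using fun i => pow_idem (μ (u i), μ (v i))
  obtain ⟨E, hE⟩ := (hS.image fun i => ((u i).length + (v i).length) * p i).bddAbove
  have l : ∀ i ∈ S, 0 < (u i).length := fun i hi => length_pos_of_ne_nil (e1 i hi)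
  have d : ∀ i ∈ S, ∃ c, E.factorial = ((u i).length + (v i).length) * p i * (c + 1) :=
    fun i hi => by
      obtain ⟨c, hc⟩ := Nat.dvd_factorial (Nat.mul_pos (by have := l i hi; omega) (hp i))
        (hE ⟨i, hi, rfl⟩)
      rcases c with _ | c
      · exact absurd hc (Nat.factorial_ne_zero E)
      · exact ⟨c, hc⟩
  choose! c hc using d
  refine ⟨E.factorial, E.factorial_pos,
    fun i => x i ++ pw (pw (u i) (p i * (c i + 1))) E.factorial, fun i => pw (u i) (p i * (c i + 1)),
    z, fun i => pw (v i) (p i * (c i + 1)),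
    fun i => pw (pw (v i) (p i * (c i + 1))) E.factorial ++ y i, fun i hi => ?_⟩
  have a0 : 0 < (pw (u i) (p i * (c i + 1))).length := by
    rw [pw_len]
    exact Nat.mul_pos (l i hi) (Nat.mul_pos (hp i) (c i).succ_pos)
  have a1 : (u i).length + (v i).length ≤ E :=
    (Nat.le_mul_of_pos_right _ (hp i)).trans (hE ⟨i, hi, rfl⟩)
  have m : ∀ (t : List α) (g : M), (∀ j, μ t ^ (p i * (j + 1)) = g) → ∀ n,
      μ (pw (pw t (p i * (c i + 1))) (n + 1)) = μ (pw t (p i * (c i + 1))) := fun t g hg n => by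
    have m : ∀ j, μ (pw t (p i * (j + 1))) = g := fun j => by
      obtain ⟨q, hq⟩ : ∃ q, p i * (j + 1) = q + 1 :=
        ⟨_, (Nat.succ_pred_eq_of_pos (Nat.mul_pos (hp i) j.succ_pos)).symm⟩
      rw [← hg j, hq, mu_pw hμ]
    rw [pw_mul, Nat.mul_assoc, show (c i + 1) * (n + 1) = (c i + 1) * n + c i + 1 by ring, m, m]
  refine ⟨?_, length_pos_iff.1 a0, by rw [pw_len, pw_len, hc i hi]; ring, fun n j => ?_,
    fun n j => ?_, fun n => ?_, m _ _ fun j => congrArg Prod.fst (hp' i j),
    m _ _ fun j => congrArg Prod.snd (hp' i j)⟩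
  · rw [length_append, pw_len]
    exact (Nat.le_mul_of_pos_left _ a0).trans (Nat.le_add_left _ _)
  · rw [pw_mul]
    exact noBrk_pw (Or.inr (Nat.dvd_factorial (l i hi) (by omega))) _ _
  · rw [pw_mul]
    refine noBrk_pw ?_ _ _
    by_cases k : v i = []
    · exact Or.inl k
    · exact Or.inr (Nat.dvd_factorial (length_pos_of_ne_nil k) (by omega))
  · have := e2 i hi (p i * (c i + 1) * (E.factorial + n))
    rw [← pw_mul (u i) _ (_ + n), ← pw_mul (v i) _ (_ + n), pw_add _ _ n,
      Nat.add_comm E.factorial n, pw_add _ n] at this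
    simpa only [append_assoc] using this

theorem mp_of_pump {β : Type} [Finite β] {Λ : Set (Set (ℕ → ℕ))} (h : Expressible Λ L)
    (f : List β → List α) (hf : ∀ u v, f (u ++ v) = f u ++ f v) (N : ℕ)
    (hp : ∀ u : List β, u.length = N → Pump L (f u)) :
    ∃ (M : Type) (_ : Monoid M) (_ : Finite M) (μ : List β → M) (c : ℕ), Hom μ ∧
      ∀ X Y, MP (fun w => X ++ f w ++ Y ∈ L) μ c := by
  obtain ⟨M, _, _, μ, C, hμ, h⟩ := sw_of_expr h
  obtain ⟨D, hD, x, U, z, V, y, hu⟩ := uniform (finite_length_eq β N) f hμ hp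
  have : NeZero D := ⟨hD.ne'⟩
  obtain ⟨T, hT⟩ : ∃ T : List β → ℕ → List α, ∀ u n,
    T u n = x u ++ pw (U u) n ++ z u ++ pw (V u) n ++ y u := ⟨_, fun _ _ => rfl⟩
  obtain ⟨M', _, _, ν, hν, hst⟩ := nu_of_state
    (fun v : List β => (v.take N, μ (f (v.drop N)), ((f (v.drop N)).length : ZMod D),
      ∀ n, PB D (x (v.take N)) (T (v.take N) n ++ f (v.drop N))))
    (((finite_length_le β N).prod Set.finite_univ).subset (by
      rintro _ ⟨v, rfl⟩
      exact ⟨length_take_le _ _, trivial⟩))
    (fun v v' a e => by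
      simp only [Prod.mk.injEq] at e
      obtain ⟨e1, e2, e3, e4⟩ := e
      have l := congrArg length e1
      rw [length_take, length_take] at l
      by_cases j : N ≤ v.length
      · have j' : N ≤ v'.length := by omega
        rw [ZMod.natCast_eq_natCast_iff'] at e3
        rw [e1] at e4
        simp only [take_append_of_le_length j, take_append_of_le_length j',
          drop_append_of_le_length j, drop_append_of_le_length j', hf, hμ _ _, e1, e2,
          pb_app _ e4 e3, Prod.mk.injEq, true_and, and_true]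
        rw [ZMod.natCast_eq_natCast_iff', length_append, length_append, Nat.add_mod, e3,
          ← Nat.add_mod]
      · rw [take_of_length_le (by omega), take_of_length_le (by omega)] at e1
        rw [e1])
  refine ⟨M', inferInstance, inferInstance, ν, 3 * (2 * C + 1), hν,
    fun X Y w hw pre v suf v' k => ?_⟩
  change X ++ f w ++ Y ∈ L at hw
  change ∃ t < 3 * (2 * C + 1), X ++ f (pre t ++ v' t ++ suf t) ++ Y ∈ L
  have k1 := fun t ht => hst _ _ (k t ht).2.2
  simp only [Prod.mk.injEq, ZMod.natCast_eq_natCast_iff] at k1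
  by_cases c1 : ∃ t < 3 * (2 * C + 1), (v t).length < N
  · obtain ⟨t, ht, j⟩ := c1
    have e1 := (k1 t ht).1
    have l := congrArg length e1
    rw [length_take, length_take] at l
    rw [take_of_length_le (by omega), take_of_length_le (by omega)] at e1
    exact ⟨t, ht, by rw [e1, ← (k t ht).1]; exact hw⟩
  push Not at c1
  have tl : ∀ t < 3 * (2 * C + 1), ((v t).take N).length = N := fun t ht => by
    have := c1 t ht
    rw [length_take]; omega
  have s1 : ∀ t < 3 * (2 * C + 1), ∀ n,
      Syn L (f (v t)) (T ((v t).take N) n ++ f ((v t).drop N)) := fun t ht n => by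
    have := ((hu _ (tl t ht)).2.2.2.2.2.1 n).app (Syn.refl (f ((v t).drop N)))
    rwa [← hf, take_append_drop, ← hT] at this
  have s2 : ∀ t < 3 * (2 * C + 1), ∀ n,
      Syn L (f (v' t)) (T ((v t).take N) n ++ f ((v' t).drop N)) := fun t ht n => by
    have := ((hu _ (tl t ht)).2.2.2.2.2.1 n).app (Syn.refl (f ((v' t).drop N)))
    rwa [← hf, ← hT, ← (k1 t ht).1, take_append_drop, (k1 t ht).1] at this
  have lT : ∀ t < 3 * (2 * C + 1), ∀ n, (T ((v t).take N) n).length =
      (T ((v t).take N) 0).length + D * n := fun t ht n => by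
    rw [hT, hT, ← (hu _ (tl t ht)).2.2.1]
    simp only [length_append, pw_len]
    ring
  by_cases c2 : ∃ t < 3 * (2 * C + 1), ∀ n,
      PB D (x ((v t).take N)) (T ((v t).take N) n ++ f ((v t).drop N))
  · obtain ⟨t, ht, j⟩ := c2
    obtain ⟨e1, -, e3, e4⟩ := k1 t ht
    rw [e1] at e4
    obtain ⟨a, b, e⟩ := pad_len e3
    have := ((e4 ▸ j) (a + 1)).eq (j (b + 1)) (by
      rw [length_append, length_append, lT t ht (a + 1), lT t ht (b + 1)]
      omega)
    have := ((s2 t ht _).trans (this ▸ (s1 t ht _).symm)) (X ++ f (pre t)) (f (suf t) ++ Y)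
    rw [(k t ht).1] at hw
    simp only [hf, append_assoc] at this hw ⊢
    exact ⟨t, ht, this.2 hw⟩
  have c3 : ∀ t < 3 * (2 * C + 1), ∃ A, Syn L (f (v t)) A ∧ ∃ i, Brk D A i := fun t ht => by
    by_contra c
    refine c2 ⟨t, ht, fun n => ?_⟩
    have e : T ((v t).take N) n ++ f ((v t).drop N) = x ((v t).take N) ++
        (pw (U ((v t).take N)) n ++ z ((v t).take N) ++ pw (V ((v t).take N)) n ++
          y ((v t).take N) ++ f ((v t).drop N)) := by
      simp only [hT, append_assoc]
    rw [e]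
    exact pb_of_noBrk hD (hu _ (tl t ht)).1 fun i hi => c ⟨_, e ▸ s1 t ht n, i, hi⟩
  choose! A A1 A2 using c3
  have pr : ∀ t ≤ 2 * C + 1, f (pre (3 * t)) = f (pre 0) ++
      seg (fun k => f (v (3 * k)) ++ f (v (3 * k + 1)) ++ f (v (3 * k + 2))) 0 t := fun t ht => by
    induction t with
    | zero => simp [seg]
    | succ t ih =>
      rw [show 3 * (t + 1) = 3 * t + 2 + 1 by ring, (k _ (by omega)).2.1, (k _ (by omega)).2.1,
        (k _ (by omega)).2.1, hf, hf, hf, ih (by omega), seg_succ]
      simp only [append_assoc, Nat.zero_add]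
  have W : f w = f (pre 0) ++
      seg (fun k => f (v (3 * k)) ++ f (v (3 * k + 1)) ++ f (v (3 * k + 2))) 0 (2 * C + 1) ++
      f (suf (6 * C + 2)) := by
    rw [← pr _ le_rfl, show 3 * (2 * C + 1) = 6 * C + 2 + 1 by ring, (k _ (by omega)).2.1, ← hf]
    exact congrArg f (k _ (by omega)).1
  obtain ⟨t, ht, j⟩ := swap_run (D := D) h (X ++ f (pre 0)) (f (suf (6 * C + 2)) ++ Y)
    (fun k => f (v (3 * k)) ++ f (v (3 * k + 1)) ++ f (v (3 * k + 2)))
    (fun k => f (v (3 * k)) ++ f (v' (3 * k + 1)) ++ f (v (3 * k + 2)))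
    (fun t ht => by
      have h1 : 3 * t + 1 < 3 * (2 * C + 1) := by omega
      obtain ⟨-, e2, e3, -⟩ := k1 _ h1
      obtain ⟨a, b, e⟩ := pad_len e3
      obtain ⟨-, z0, z1, z2, z3, -, z4, z5⟩ := hu _ (tl _ h1)
      obtain ⟨i, hi⟩ := A2 (3 * t) (by omega)
      obtain ⟨i', hi'⟩ := A2 (3 * t + 2) (by omega)
      have l1 := lT _ h1
      have s1 := s1 _ h1
      have s2 := s2 _ h1
      set u := (v (3 * t + 1)).take N
      have q : ∀ m, A (3 * t) ++ (x u ++ pw (U u) (b + 1)) ++ pw (U u) m ++ z u ++ pw (V u) m ++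
          (pw (V u) (b + 1) ++ y u ++ f ((v (3 * t + 1)).drop N) ++ A (3 * t + 2)) =
          A (3 * t) ++ (T u (b + m + 1) ++ f ((v (3 * t + 1)).drop N)) ++ A (3 * t + 2) :=
        fun m => by
          rw [hT, Nat.add_right_comm, pw_add _ _ m, Nat.add_comm (b + 1) m, pw_add _ m]
          simp only [append_assoc]
      refine ⟨A (3 * t) ++ (x u ++ pw (U u) (b + 1)), U u, z u, V u,
        pw (V u) (b + 1) ++ y u ++ f ((v (3 * t + 1)).drop N) ++ A (3 * t + 2), z0, z1, z2, z3,
        ⟨_, by simpa only [nil_append] using hi.mid [] _⟩,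
        ⟨_, by simpa only [append_nil] using hi'.mid _ []⟩, fun m => ?_⟩
      rw [q]
      refine ⟨((A1 _ (by omega)).app (s1 _)).app (A1 _ (by omega)),
        A (3 * t) ++ (T u (a + m + 1) ++ f ((v' (3 * t + 1)).drop N)) ++ A (3 * t + 2), ?_, ?_,
        ((A1 _ (by omega)).app (s2 _)).app (A1 _ (by omega))⟩
      · simp only [length_append]
        rw [l1 (a + m + 1), l1 (b + m + 1)]
        simp only [Nat.mul_add] at e ⊢
        omega
      · simp only [hT, hμ _ _, z4, z5, e2])
    (by simpa only [W, append_assoc] using hw)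
  refine ⟨3 * t + 1, by omega, ?_⟩
  have S := congrArg f (k (3 * t + 1) (by omega)).1
  rw [W, (k _ (by omega)).2.1, hf, hf, hf, pr t ht.le, seg_split _ ht] at S
  simp only [append_assoc, append_cancel_left_eq] at S
  rw [(k _ (by omega)).2.1, hf, hf, hf, pr t ht.le, ← S]
  simpa only [append_assoc] using j

theorem short_of_pump {β : Type} [Finite β] {Λ : Set (Set (ℕ → ℕ))} (h : Expressible Λ L)
    (f : List β → List α) (hf : ∀ u v, f (u ++ v) = f u ++ f v) (N : ℕ)
    (hp : ∀ u : List β, u.length = N → Pump L (f u)) :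
    ∃ l, ∀ w : List β, ∃ w' : List β, w'.length ≤ l ∧ Syn L (f w) (f w') := by
  obtain ⟨M, _, _, μ, c, hμ, k⟩ := mp_of_pump h f hf N hp
  obtain ⟨l, hl⟩ := short_of_mp (ι := List α × List α)
    (L := fun i w => i.1 ++ f w ++ i.2 ∈ L) hμ fun i => k i.1 i.2
  refine ⟨l, fun w => ?_⟩
  obtain ⟨w', a, b⟩ := hl w
  refine ⟨w', a, fun x y => ?_⟩
  have := b (x, y) [] []
  rw [nil_append, nil_append, append_nil, append_nil] at this
  exact this

theorem pump_of_nest {β : Type} [Finite β] (f : List β → List α) (N : ℕ)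
    (hp : ∀ u : List β, u.length = N → Pump L (f u) ∨
      ∃ x y u', x ++ y ≠ [] ∧ u'.length = N ∧ Syn L (f u) (x ++ f u' ++ y))
    (u : List β) (hu : u.length = N) : Pump L (f u) := by
  by_contra c
  have hS : {u : List β | u.length = N ∧ ¬ Pump L (f u)}.Finite :=
    (finite_length_eq β N).subset fun _ j => j.1
  have := hS.to_subtype
  have e : ∀ a : {u : List β | u.length = N ∧ ¬ Pump L (f u)},
      ∃ b : {u : List β | u.length = N ∧ ¬ Pump L (f u)}, ∃ x y, x ++ y ≠ [] ∧
        Syn L (f a) (x ++ f b ++ y) := fun a => by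
    obtain ⟨x, y, b, b1, b2, b3⟩ := (hp a a.2.1).resolve_left a.2.2
    refine ⟨⟨b, b2, ?_⟩, x, y, b1, b3⟩
    rintro ⟨x', p, z, q, y', d1, d2⟩
    exact a.2.2 ⟨x ++ x', p, z, q, y' ++ y, d1, fun n => by
      simpa only [append_assoc] using b3.trans (((Syn.refl x).app (d2 n)).app (Syn.refl y))⟩
  choose g hg using e
  have it : ∀ n a, ∃ x y, x ++ y ≠ [] ∧ Syn L (f a.1) (x ++ f (g^[n + 1] a).1 ++ y) := fun n => by
    induction n with
    | zero => exact hg
    | succ n ih =>
      intro a
      obtain ⟨x, y, a1, a2⟩ := hg a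
      obtain ⟨x', y', -, b2⟩ := ih (g a)
      refine ⟨x ++ x', y' ++ y, fun j => a1 ?_, ?_⟩
      · simp only [append_eq_nil_iff] at j ⊢
        exact ⟨j.1.1, j.2.2⟩
      · rw [Function.iterate_succ_apply]
        simpa only [append_assoc] using a2.trans (((Syn.refl x).app b2).app (Syn.refl y))
  have fin : ∀ n a, g^[n + 1] a ≠ a := fun n a j => by
    obtain ⟨x, y, a1, a2⟩ := it n a
    rw [j] at a2
    refine a.2.2 ⟨[], x, f a.1, y, [], a1, fun m => ?_⟩
    rw [nil_append, append_nil]
    induction m with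
    | zero => simpa [pw] using Syn.refl _
    | succ m ih =>
      rw [pw_succ' y, pw]
      simpa only [append_assoc] using a2.trans (((Syn.refl x).app ih).app (Syn.refl y))
  obtain ⟨i, j, a, b⟩ := Finite.exists_ne_map_eq_of_infinite fun n : ℕ => g^[n] ⟨u, hu, c⟩
  rcases lt_or_gt_of_ne a with a | a
  · obtain ⟨d, rfl⟩ := Nat.exists_eq_add_of_lt a
    exact fin d _ (by rw [← Function.iterate_add_apply, show d + 1 + i = i + d + 1 by ring, ← b])
  · obtain ⟨d, rfl⟩ := Nat.exists_eq_add_of_lt a
    exact fin d _ (by rw [← Function.iterate_add_apply, show d + 1 + j = j + d + 1 by ring, b])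

theorem pump_of_finite {W R : Set (List α)} (h0 : [] ∉ W) (hR : R.Finite)
    (h : ∀ B : List (List α), (∀ w ∈ B, w ∈ W) → ∃ r ∈ R, Syn L B.flatten r) :
    ∃ N, ∀ B : List (List α), (∀ w ∈ B, w ∈ W) → B.length = N → Pump L B.flatten := by
  have hT := hR.image fun r => {w | Syn L r w}
  refine ⟨((fun r => {w | Syn L r w}) '' R).ncard, fun B hB hl => ?_⟩
  obtain ⟨A, H, E, e, h1, h2⟩ := cycle hT (fun P : List (List α) => {w | Syn L P.flatten w}) B hl.ge
    fun P hP => by
      obtain ⟨r, a, b⟩ := h P fun w hw => hB w (hP.subset hw)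
      exact ⟨r, a, Set.ext fun w => ⟨b.trans, b.symm.trans⟩⟩
  have k : Syn L (A.flatten ++ H.flatten) A.flatten := by
    rw [← flatten_append]
    exact (Set.ext_iff.1 h2 _).2 (Syn.refl _)
  refine ⟨A.flatten, H.flatten, [], [], E.flatten, ?_, fun n => ?_⟩
  · obtain ⟨a, H, rfl⟩ := exists_cons_of_ne_nil h1
    intro j
    simp only [flatten_cons, append_eq_nil_iff] at j
    exact h0 (j.1.1 ▸ hB a (by rw [e]; simp))
  · rw [pw_nil, append_nil, append_nil, e, flatten_append, flatten_append]
    refine Syn.app (k.trans ?_) (Syn.refl _)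
    induction n with
    | zero => simpa [pw] using Syn.refl _
    | succ n ih =>
      rw [pw_succ', ← append_assoc]
      exact k.symm.trans (ih.app (Syn.refl _))

end Pool.Agent.Work.MP_cb6225_lc
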